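import Pool.Agent.U753.MG.Stm
import Pool.Agent.U261.MK.EN

/-!
# Project MG, package EN2: logarithms of regularised reduced states, sharper norm bound
-/

set_option autoImplicit false

open scoped BigOperators Matrix ComplexOrder Kronecker
open scoped Matrix.Norms.L2Operator

noncomputable section

namespace Pool.Agent.U194.MG

open Pool.Agent.U753.MK Pool.Agent.U753.MG Pool.Agent.U261.MK

/-- Package EN2 of project MG (the proof of helper261 of package EN of project MK with a sharper
norm bound). -/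
theorem t_ent2 : StmEnt2 := by
  intro V _ _ d hd ρ hρ htr δ hδ0 hδ1 A
  have hd0 : 0 < d := by omega
  have : NeZero d := ⟨hd0.ne'⟩
  have hσp : (ptr A ρ).PosSemidef := ptr_posSemidef A ρ hρ
  have hσ : (ptr A ρ).IsHermitian := hσp.isHermitian
  have hσtr : (ptr A ρ).trace = 1 := by rw [ptr_trace, htr]
  obtain ⟨p, hp⟩ : ∃ p, p = hσ.eigenvalues := ⟨_, rfl⟩
  obtain ⟨U, hUdef⟩ : ∃ U : Matrix (SA A d) (SA A d) ℂ, U = (hσ.eigenvectorUnitary : _) := ⟨_, rfl⟩
  have hU : U ∈ Matrix.unitaryGroup (SA A d) ℂ := by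
    rw [hUdef]; exact (hσ.eigenvectorUnitary).2
  have hspec : ptr A ρ = U * Matrix.diagonal (fun i => (p i : ℂ)) * Uᴴ := by
    conv_lhs => rw [hσ.spectral_theorem]
    rw [Unitary.conjStarAlgAut_apply, hUdef, hp]
    rfl
  have hp0 : ∀ i, 0 ≤ p i := by
    intro i; rw [hp]; exact hσp.eigenvalues_nonneg i
  have hpsum : ∑ i, p i = 1 := by
    have h1 := hσ.trace_eq_sum_eigenvalues
    rw [hσtr] at h1
    rw [hp]
    have h2 : ((∑ i, hσ.eigenvalues i : ℝ) : ℂ) = 1 := by
      push_cast
      exact h1.symm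
    exact_mod_cast h2
  have hp1 : ∀ i, p i ≤ 1 := by
    intro i
    rw [← hpsum]
    exact Finset.single_le_sum (fun j _ => hp0 j) (Finset.mem_univ i)
  have hS0 : (0 : ℝ) < Fintype.card (SA A d) := by
    have : 0 < Fintype.card (SA A d) := Fintype.card_pos
    exact_mod_cast this
  have hW0 : (0 : ℝ) < Fintype.card (WA A d) := by
    have : 0 < Fintype.card (WA A d) := Fintype.card_pos
    exact_mod_cast this
  obtain ⟨D, hD⟩ : ∃ D : ℝ, D = Fintype.card (SA A d) := ⟨_, rfl⟩
  obtain ⟨W, hW⟩ : ∃ W : ℝ, W = Fintype.card (WA A d) := ⟨_, rfl⟩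
  rw [← hD] at hS0
  rw [← hW] at hW0
  have hD1 : 1 ≤ D := by
    have : 1 ≤ Fintype.card (SA A d) := Fintype.card_pos
    rw [hD]; exact_mod_cast this
  have hW1 : 1 ≤ W := by
    have : 1 ≤ Fintype.card (WA A d) := Fintype.card_pos
    rw [hW]; exact_mod_cast this
  have hdR : (1 : ℝ) ≤ d := by exact_mod_cast hd0
  have hlogd : 0 ≤ Real.log d := Real.log_nonneg hdR
  have hlogD : Real.log D = A.card * Real.log d := by
    rw [hD, cardSA]; push_cast; rw [Real.log_pow]
  have hN : ((d : ℝ) ^ Fintype.card V) = D * W := by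
    rw [hD, hW]; exact_mod_cast card_eq A d
  have hlogW : Real.log W = ((Fintype.card V : ℝ) - A.card) * Real.log d := by
    have h1 : Real.log ((d : ℝ) ^ Fintype.card V) = Real.log D + Real.log W := by
      rw [hN, Real.log_mul hS0.ne' hW0.ne']
    rw [Real.log_pow, hlogD] at h1
    linarith
  -- the regularised eigenvalues
  obtain ⟨p', hp'⟩ : ∃ p' : SA A d → ℝ, p' = fun i => (1 - δ) * p i + δ / D := ⟨_, rfl⟩
  have hp'i : ∀ i, p' i = (1 - δ) * p i + δ / D := fun i => by rw [hp']
  have hδD : 0 < δ / D := div_pos hδ0 hS0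
  have hp'lb : ∀ i, δ / D ≤ p' i := by
    intro i
    rw [hp'i]
    have := mul_nonneg (by linarith : (0 : ℝ) ≤ 1 - δ) (hp0 i)
    linarith
  have hp'pos : ∀ i, 0 < p' i := fun i => lt_of_lt_of_le hδD (hp'lb i)
  have hp'ub : ∀ i, p' i ≤ 1 := by
    intro i
    rw [hp'i]
    have h1 : (1 - δ) * p i ≤ (1 - δ) * 1 :=
      mul_le_mul_of_nonneg_left (hp1 i) (by linarith)
    have h2 : δ / D ≤ δ := div_le_self hδ0.le hD1
    linarith
  have hp'sum : ∑ i, p' i = 1 := by
    simp only [hp'i]
    rw [Finset.sum_add_distrib, ← Finset.mul_sum, hpsum, Finset.sum_const, Finset.card_univ,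
      nsmul_eq_mul, ← hD]
    field_simp
    ring
  obtain ⟨q, hq⟩ : ∃ q : SA A d → ℝ, q = fun i => Real.log (p' i) - Real.log W := ⟨_, rfl⟩
  have hqi : ∀ i, q i = Real.log (p' i) - Real.log W := fun i => by rw [hq]
  have hexpq : ∀ i, Real.exp (q i) = W⁻¹ * p' i := by
    intro i
    rw [hqi, Real.exp_sub, Real.exp_log (hp'pos i), Real.exp_log hW0]
    field_simp
  obtain ⟨M, hM⟩ : ∃ M : Matrix (SA A d) (SA A d) ℂ,
    M = U * Matrix.diagonal (fun i => (q i : ℂ)) * Uᴴ := ⟨_, rfl⟩
  have hŨ := lft_unitary A hU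
  have hX : lft A M = lft A U * Matrix.diagonal (fun s => (q (eqv A d s).1 : ℂ)) * (lft A U)ᴴ := by
    rw [hM, lft_mul, lft_mul, lft_conj, lft_diag]
  refine ⟨lft A M, ?_, ?_, ?_, ?_⟩
  · -- Hermitian
    rw [Matrix.IsHermitian, ← lft_conj, hM, Matrix.conjTranspose_mul, Matrix.conjTranspose_mul,
      Matrix.conjTranspose_conjTranspose, Matrix.diagonal_conjTranspose, mul_assoc]
    congr 4
    funext i
    simp
  · -- exponential
    rw [hX, exp_unitary_conj hŨ]
    rw [cexp_eq A hd0, ptr_lin]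
    have h1 : Matrix.diagonal (fun s => ((Real.exp (q (eqv A d s).1) : ℝ) : ℂ)) =
        lft A (Matrix.diagonal fun i => ((Real.exp (q i) : ℝ) : ℂ)) := by
      rw [lft_diag]
    rw [h1, ← lft_conj, ← lft_mul, ← lft_mul]
    congr 1
    have h2 : (Matrix.diagonal fun i => ((Real.exp (q i) : ℝ) : ℂ)) =
        ((W⁻¹ : ℝ) : ℂ) • ((((1 - δ : ℝ)) : ℂ) • Matrix.diagonal (fun i => (p i : ℂ)) +
          ((δ / D : ℝ) : ℂ) • (1 : Matrix (SA A d) (SA A d) ℂ)) := by
      rw [← Matrix.diagonal_one, ← Matrix.diagonal_smul, ← Matrix.diagonal_smul,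
        Matrix.diagonal_add, ← Matrix.diagonal_smul]
      congr 1
      funext i
      rw [hexpq, hp'i]
      simp only [Pi.smul_apply, smul_eq_mul]
      push_cast
      simp
    rw [h2]
    rw [hspec]
    have hUU : U * Uᴴ = 1 := by
      rw [← Matrix.star_eq_conjTranspose]; exact Matrix.mem_unitaryGroup_iff.1 hU
    rw [Matrix.mul_smul, Matrix.smul_mul, Matrix.mul_add, Matrix.add_mul, Matrix.mul_smul,
      Matrix.smul_mul, Matrix.mul_smul, Matrix.smul_mul, mul_one, hUU]
    have h3 : ((W⁻¹ : ℝ) : ℂ) = ((Fintype.card (WA A d) : ℂ))⁻¹ := by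
      rw [hW]; push_cast; rfl
    have h4 : ((δ / (d : ℝ) ^ Fintype.card V : ℝ) : ℂ) * (Fintype.card (WA A d) : ℂ) =
        ((δ / D : ℝ) : ℂ) := by
      have h5 : (Fintype.card (WA A d) : ℂ) = ((W : ℝ) : ℂ) := by rw [hW]; push_cast; rfl
      rw [h5, ← Complex.ofReal_mul, hN]
      congr 1
      field_simp
    rw [h3, h4]
  · -- norm
    have hUUt : lft A U * (lft A U)ᴴ = 1 := by
      rw [← Matrix.star_eq_conjTranspose]; exact Matrix.mem_unitaryGroup_iff.1 hŨ
    have hXc : lft A M + (((((Fintype.card V : ℝ) - A.card) * Real.log d : ℝ)) : ℂ) •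
        (1 : Matrix (V → Fin d) (V → Fin d) ℂ) = lft A U *
        Matrix.diagonal (fun s => ((Real.log (p' (eqv A d s).1) : ℝ) : ℂ)) * (lft A U)ᴴ := by
      rw [← hlogW, hX]
      have h1 : (Matrix.diagonal fun s : V → Fin d =>
          ((Real.log (p' (eqv A d s).1) : ℝ) : ℂ)) =
          Matrix.diagonal (fun s => (q (eqv A d s).1 : ℂ)) +
            ((Real.log W : ℝ) : ℂ) • (1 : Matrix (V → Fin d) (V → Fin d) ℂ) := by
        rw [← Matrix.diagonal_one, ← Matrix.diagonal_smul, Matrix.diagonal_add]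
        congr 1
        funext s
        rw [hqi]
        simp only [Pi.smul_apply, smul_eq_mul]
        push_cast
        ring
      rw [h1, Matrix.mul_add, Matrix.add_mul, Matrix.mul_smul, Matrix.smul_mul, mul_one, hUUt]
    rw [hXc, ← Matrix.star_eq_conjTranspose,
      CStarRing.norm_mul_mem_unitary _ (Unitary.star_mem hŨ),
      CStarRing.norm_mem_unitary_mul _ hŨ, Matrix.l2_opNorm_diagonal]
    have hB : 0 ≤ Real.log (1 / δ) := Real.log_nonneg (by
      rw [le_div_iff₀ hδ0]; linarith)
    have h5 : 0 ≤ (A.card : ℝ) * Real.log d := mul_nonneg (Nat.cast_nonneg _) hlogd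
    rw [pi_norm_le_iff_of_nonneg (add_nonneg h5 hB)]
    intro s
    rw [Complex.norm_real, Real.norm_eq_abs, abs_le]
    have h1 : Real.log (δ / D) ≤ Real.log (p' (eqv A d s).1) :=
      Real.log_le_log hδD (hp'lb _)
    have h2 : Real.log (p' (eqv A d s).1) ≤ 0 := Real.log_nonpos (hp'pos _).le (hp'ub _)
    rw [Real.log_div hδ0.ne' hS0.ne', hlogD] at h1
    have h4 : Real.log (1 / δ) = - Real.log δ := by rw [one_div, Real.log_inv]
    rw [h4] at hB ⊢
    constructor <;> linarith
  · -- entropies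
    have htrX : (ρ * lft A M).trace = ((∑ i, p i * q i : ℝ) : ℂ) := by
      rw [lft_trace, hspec, hM]
      have hUU : Uᴴ * U = 1 := by
        rw [← Matrix.star_eq_conjTranspose]; exact Matrix.mem_unitaryGroup_iff'.1 hU
      have : U * Matrix.diagonal (fun i => (p i : ℂ)) * Uᴴ *
          (U * Matrix.diagonal (fun i => (q i : ℂ)) * Uᴴ) =
          U * (Matrix.diagonal (fun i => (p i : ℂ)) * Matrix.diagonal (fun i => (q i : ℂ))) * Uᴴ := by
        calc _ = U * Matrix.diagonal (fun i => (p i : ℂ)) * (Uᴴ * U) *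
            Matrix.diagonal (fun i => (q i : ℂ)) * Uᴴ := by simp only [mul_assoc]
          _ = _ := by rw [hUU, mul_one]; simp only [mul_assoc]
      rw [this, Matrix.trace_mul_comm, ← mul_assoc, hUU, one_mul, Matrix.diagonal_mul_diagonal,
        Matrix.trace_diagonal]
      push_cast
      rfl
    have hvn : vnE (ptr A ρ) = ∑ i, Real.negMulLog (p i) := by
      rw [vnE, dif_pos hσ, hp]
    have hre : -(ρ * lft A M).trace.re = (∑ i, -(p i * Real.log (p' i))) + Real.log W := by
      rw [htrX, Complex.ofReal_re, Finset.sum_neg_distrib]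
      have : ∑ i, p i * q i = ∑ i, p i * Real.log (p' i) - Real.log W := by
        simp only [hqi, mul_sub]
        rw [Finset.sum_sub_distrib, ← Finset.sum_mul, hpsum, one_mul]
      rw [this]; ring
    rw [hre, hvn, ← hlogW]
    have hlow : ∀ i, Real.negMulLog (p i) + (p i - p' i) ≤ -(p i * Real.log (p' i)) := by
      intro i
      rw [Real.negMulLog]
      rcases (hp0 i).eq_or_lt with h | h
      · rw [← h]
        simp only [neg_zero, zero_mul, zero_sub, zero_add]
        linarith [hp'pos i]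
      · have h1 := Real.log_le_sub_one_of_pos (div_pos (hp'pos i) h)
        rw [Real.log_div (hp'pos i).ne' h.ne'] at h1
        have h2 : p i * (Real.log (p' i) - Real.log (p i)) ≤ p i * (p' i / p i - 1) :=
          mul_le_mul_of_nonneg_left h1 h.le
        have h3 : p i * (p' i / p i - 1) = p' i - p i := by field_simp
        rw [h3] at h2
        linarith
    have hupp : ∀ i, -(p i * Real.log (p' i)) ≤ Real.negMulLog (p i) + p i * (2 * δ) := by
      intro i
      rw [Real.negMulLog]
      rcases (hp0 i).eq_or_lt with h | h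
      · rw [← h]; simp
      · have hδ' : 0 < 1 - δ := by linarith
        have h1 : (1 - δ) * p i ≤ p' i := by rw [hp'i]; linarith
        have h2 := Real.log_le_log (mul_pos hδ' h) h1
        rw [Real.log_mul hδ'.ne' h.ne'] at h2
        have h3 : -(2 * δ) ≤ Real.log (1 - δ) := by
          have h4 := Real.one_sub_inv_le_log_of_pos hδ'
          have h5 : -(2 * δ) ≤ 1 - (1 - δ)⁻¹ := by
            have h6 : (1 - δ)⁻¹ ≤ 1 + 2 * δ := by
              rw [inv_le_comm₀ hδ' (by linarith), inv_eq_one_div, div_le_iff₀ (by linarith)]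
              nlinarith
            linarith
          linarith
        have h7 : p i * (-(2 * δ) + Real.log (p i)) ≤ p i * Real.log (p' i) :=
          mul_le_mul_of_nonneg_left (by linarith) h.le
        linarith
    constructor
    · have h1 := Finset.sum_le_sum fun i (_ : i ∈ Finset.univ) => hlow i
      rw [Finset.sum_add_distrib, Finset.sum_sub_distrib, hpsum, hp'sum] at h1
      linarith
    · have h1 := Finset.sum_le_sum fun i (_ : i ∈ Finset.univ) => hupp i
      rw [Finset.sum_add_distrib, ← Finset.sum_mul, hpsum] at h1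
      linarith

end Pool.Agent.U194.MG
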